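import Pool.Agent.helper34.MO.SpecA

/-! Row mo:SEG (project MO, MP_0631c5_co): the segment lemma. -/

open Complex Finset

namespace Pool.Agent.MO

theorem SEG_acc (F G : ℕ → ℕ → ℂ) (S : Finset ℕ) (hF : AccS F S) (hG : AccS G S) (s : ℝ)
    (hs : s ∈ Set.Icc (0 : ℝ) 1) : AccS (mix F G s) S := by
  intro x hx
  have h1 := hF x hx
  have h2 := hG x hx
  have e : (∑ i ∈ S, ∑ j ∈ S, (starRingEnd ℂ) (x i) * mix F G s i j * x j)
      = ((1 - s : ℝ) : ℂ) * (∑ i ∈ S, ∑ j ∈ S, (starRingEnd ℂ) (x i) * F i j * x j)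
        + (s : ℂ) * (∑ i ∈ S, ∑ j ∈ S, (starRingEnd ℂ) (x i) * G i j * x j) := by
    rw [Finset.mul_sum, Finset.mul_sum, ← Finset.sum_add_distrib]
    refine Finset.sum_congr rfl fun i _ => ?_
    rw [Finset.mul_sum, Finset.mul_sum, ← Finset.sum_add_distrib]
    refine Finset.sum_congr rfl fun j _ => ?_
    unfold mix
    push_cast
    ring
  rw [e, Complex.add_re, Complex.re_ofReal_mul, Complex.re_ofReal_mul]
  obtain ⟨hs0, hs1⟩ := hs
  rcases eq_or_lt_of_le hs0 with h | h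
  · rw [← h]
    simpa using h1
  · have h3 : 0 < s * (∑ i ∈ S, ∑ j ∈ S, (starRingEnd ℂ) (x i) * G i j * x j).re := mul_pos h h2
    have h4 : 0 ≤ (1 - s) * (∑ i ∈ S, ∑ j ∈ S, (starRingEnd ℂ) (x i) * F i j * x j).re :=
      mul_nonneg (by linarith) h1.le
    linarith

theorem SEG_mix0 (F G : ℕ → ℕ → ℂ) : mix F G 0 = F := by
  funext x y
  simp [mix]

theorem SEG_mix1 (F G : ℕ → ℕ → ℂ) : mix F G 1 = G := by
  funext x y
  simp [mix]

/-- a convex combination of `1` and `q` -/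
theorem SEG_b (q : ℂ) (hq : q ∈ slitPlane) (s : ℝ) (hs : s ∈ Set.Icc (0 : ℝ) 1) :
    (1 - (s : ℂ)) + (s : ℂ) * q ∈ slitPlane := by
  obtain ⟨hs0, hs1⟩ := hs
  rw [Complex.mem_slitPlane_iff] at hq ⊢
  have hre : ((1 - (s : ℂ)) + (s : ℂ) * q).re = (1 - s) + s * q.re := by simp
  have him : ((1 - (s : ℂ)) + (s : ℂ) * q).im = s * q.im := by simp
  rw [hre, him]
  rcases eq_or_lt_of_le hs0 with h | h
  · left
    rw [← h]
    norm_num
  · by_cases hi : q.im = 0
    · left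
      rcases hq with hq | hq
      · have := mul_pos h hq
        linarith
      · exact absurd hi hq
    · right
      exact mul_ne_zero h.ne' hi

theorem SEG_up (q : ℂ) (hq : q ∈ slitPlane) (hi : 0 ≤ q.im) (s : ℝ) (hs : s ∈ Set.Icc (0 : ℝ) 1) :
    0 ≤ arg ((1 - (s : ℂ)) + (s : ℂ) * q) ∧ arg ((1 - (s : ℂ)) + (s : ℂ) * q) ≤ arg q := by
  have hb := SEG_b q hq s hs
  obtain ⟨hs0, hs1⟩ := hs
  set b : ℂ := (1 - (s : ℂ)) + (s : ℂ) * q with hbdef
  have hre : b.re = (1 - s) + s * q.re := by simp [hbdef]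
  have him : b.im = s * q.im := by simp [hbdef]
  have hb0 : 0 ≤ arg b := by
    rw [Complex.arg_nonneg_iff, him]
    exact mul_nonneg hs0 hi
  have hq0 : 0 ≤ arg q := Complex.arg_nonneg_iff.mpr hi
  have hqp : arg q < Real.pi := lt_of_le_of_ne (Complex.arg_le_pi q) (Complex.mem_slitPlane_iff_arg.mp hq).1
  have hbp : arg b < Real.pi := lt_of_le_of_ne (Complex.arg_le_pi b) (Complex.mem_slitPlane_iff_arg.mp hb).1
  refine ⟨hb0, ?_⟩
  by_contra hcon
  push Not at hcon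
  have hsin : Real.sin (arg q - arg b) < 0 :=
    Real.sin_neg_of_neg_of_neg_pi_lt (by linarith) (by linarith)
  have hqn : q ≠ 0 := Complex.slitPlane_ne_zero hq
  have hbn : b ≠ 0 := Complex.slitPlane_ne_zero hb
  have hqn' : 0 < ‖q‖ := norm_pos_iff.mpr hqn
  have hbn' : 0 < ‖b‖ := norm_pos_iff.mpr hbn
  rw [Real.sin_sub, Complex.sin_arg, Complex.sin_arg, Complex.cos_arg hqn, Complex.cos_arg hbn, hre, him] at hsin
  have : q.im / ‖q‖ * ((1 - s + s * q.re) / ‖b‖) - q.re / ‖q‖ * (s * q.im / ‖b‖)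
      = (1 - s) * q.im / (‖q‖ * ‖b‖) := by
    field_simp
    ring
  rw [this] at hsin
  have h3 : 0 ≤ (1 - s) * q.im / (‖q‖ * ‖b‖) :=
    div_nonneg (mul_nonneg (by linarith) hi) (mul_pos hqn' hbn').le
  linarith

theorem SEG_dn (q : ℂ) (hq : q ∈ slitPlane) (hi : q.im ≤ 0) (s : ℝ) (hs : s ∈ Set.Icc (0 : ℝ) 1) :
    arg q ≤ arg ((1 - (s : ℂ)) + (s : ℂ) * q) ∧ arg ((1 - (s : ℂ)) + (s : ℂ) * q) ≤ 0 := by
  have hb := SEG_b q hq s hs
  have hq' : (starRingEnd ℂ) q ∈ slitPlane := by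
    rw [Complex.mem_slitPlane_iff] at hq ⊢
    simpa using hq
  have h := SEG_up ((starRingEnd ℂ) q) hq' (by simpa using hi) s hs
  have e : (1 - (s : ℂ)) + (s : ℂ) * (starRingEnd ℂ) q = (starRingEnd ℂ) ((1 - (s : ℂ)) + (s : ℂ) * q) := by
    simp
  rw [e, Complex.arg_conj, Complex.arg_conj, if_neg (Complex.mem_slitPlane_iff_arg.mp hq).1,
    if_neg (Complex.mem_slitPlane_iff_arg.mp hb).1] at h
  constructor <;> linarith [h.1, h.2]

/-- continuous, zero at `0`, cosine one: zero -/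
theorem SEG_cos (h : ℝ → ℝ) (hc : ContinuousOn h (Set.Icc 0 1)) (h0 : h 0 = 0)
    (h1 : ∀ s ∈ Set.Icc (0 : ℝ) 1, Real.cos (h s) = 1) (s : ℝ) (hs : s ∈ Set.Icc (0 : ℝ) 1) : h s = 0 := by
  by_contra hne
  obtain ⟨n, hn⟩ := (Real.cos_eq_one_iff (h s)).mp (h1 s hs)
  have hn0 : n ≠ 0 := by
    rintro rfl
    apply hne
    rw [← hn]
    simp
  have habs : Real.pi ≤ |h s| := by
    rw [← hn, abs_mul, abs_of_pos Real.two_pi_pos]
    have : (1 : ℝ) ≤ |(n : ℝ)| := by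
      rw [← Int.cast_abs]
      exact_mod_cast Int.one_le_abs hn0
    nlinarith [Real.pi_pos]
  have hc' : ContinuousOn (fun x => |h x|) (Set.Icc 0 s) :=
    (hc.mono (Set.Icc_subset_Icc le_rfl hs.2)).abs
  have hiv := intermediate_value_Icc hs.1 hc'
  have hmem : Real.pi ∈ Set.Icc (|h 0|) (|h s|) := by
    rw [h0, abs_zero]
    exact ⟨Real.pi_pos.le, habs⟩
  obtain ⟨s', hs', he⟩ := hiv hmem
  have h2 := h1 s' ⟨hs'.1, hs'.2.trans hs.2⟩
  rw [← Real.cos_abs] at h2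
  simp only at he
  rw [he, Real.cos_pi] at h2
  norm_num at h2

theorem SEG_core (g : ℝ → ℝ) (hg : ContinuousOn g (Set.Icc 0 1)) (d0 d1 : ℂ)
    (hne : ∀ s ∈ Set.Icc (0 : ℝ) 1, (1 - (s : ℂ)) * d0 + (s : ℂ) * d1 ≠ 0)
    (hex : ∀ s ∈ Set.Icc (0 : ℝ) 1, (1 - (s : ℂ)) * d0 + (s : ℂ) * d1
      = (‖(1 - (s : ℂ)) * d0 + (s : ℂ) * d1‖ : ℂ) * exp (g s * I)) :
    d1 / d0 ∈ slitPlane ∧ ∀ s ∈ Set.Icc (0 : ℝ) 1, g s = g 0 + arg ((1 - (s : ℂ)) + (s : ℂ) * (d1 / d0)) := by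
  have h00 : (0 : ℝ) ∈ Set.Icc (0 : ℝ) 1 := ⟨le_rfl, zero_le_one⟩
  have hd0 : d0 ≠ 0 := by
    have := hne 0 h00
    simpa using this
  have hfac : ∀ s : ℝ, (1 - (s : ℂ)) * d0 + (s : ℂ) * d1 = d0 * ((1 - (s : ℂ)) + (s : ℂ) * (d1 / d0)) := by
    intro s
    field_simp
  have hslit : d1 / d0 ∈ slitPlane := by
    rw [Complex.mem_slitPlane_iff]
    by_contra hcon
    push Not at hcon
    obtain ⟨hr, hi⟩ := hcon
    set q := d1 / d0 with hqdef
    have h1 : 0 < 1 - q.re := by linarith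
    have hs : (1 / (1 - q.re)) ∈ Set.Icc (0 : ℝ) 1 := by
      refine ⟨by positivity, ?_⟩
      rw [div_le_one h1]
      linarith
    apply hne _ hs
    rw [hfac]
    have hq : q = ((q.re : ℝ) : ℂ) := by
      apply Complex.ext <;> simp [hi]
    rw [mul_eq_zero]
    right
    have h2 : ((1 - q.re : ℝ) : ℂ) ≠ 0 := by
      exact_mod_cast h1.ne'
    have h3 : (1 - (((1 / (1 - q.re) : ℝ)) : ℂ)) + (((1 / (1 - q.re) : ℝ)) : ℂ) * q
        = (((1 - (1 / (1 - q.re))) + (1 / (1 - q.re)) * q.re : ℝ) : ℂ) := by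
      conv_lhs => rw [hq]
      push_cast
      simp
    rw [h3]
    have h4 : (1 - (1 / (1 - q.re))) + (1 / (1 - q.re)) * q.re = 0 := by
      field_simp
      ring
    rw [h4]
    simp
  refine ⟨hslit, ?_⟩
  set q := d1 / d0 with hqdef
  have hb : ∀ s ∈ Set.Icc (0 : ℝ) 1, (1 - (s : ℂ)) + (s : ℂ) * q ∈ slitPlane := fun s hs => SEG_b q hslit s hs
  have hcont : ContinuousOn (fun s : ℝ => g s - g 0 - arg ((1 - (s : ℂ)) + (s : ℂ) * q)) (Set.Icc 0 1) := by
    refine (hg.sub continuousOn_const).sub ?_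
    intro s hs
    have h1 : ContinuousAt (fun s : ℝ => (1 - (s : ℂ)) + (s : ℂ) * q) s := by
      apply Continuous.continuousAt
      fun_prop
    exact ((Complex.continuousAt_arg (hb s hs)).comp_of_eq h1 rfl).continuousWithinAt
  have hz0 : g 0 - g 0 - arg ((1 - ((0 : ℝ) : ℂ)) + ((0 : ℝ) : ℂ) * q) = 0 := by
    simp
  have hkey : ∀ s ∈ Set.Icc (0 : ℝ) 1, Real.cos (g s - g 0 - arg ((1 - (s : ℂ)) + (s : ℂ) * q)) = 1 := by
    intro s hs
    have e1 := hex s hs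
    have e0 := hex 0 h00
    have e0' : d0 = (‖d0‖ : ℂ) * exp (g 0 * I) := by
      simpa using e0
    set b := (1 - (s : ℂ)) + (s : ℂ) * q with hbdef
    have hbn : b ≠ 0 := Complex.slitPlane_ne_zero (hb s hs)
    have eb : (‖b‖ : ℂ) * exp (arg b * I) = b := Complex.norm_mul_exp_arg_mul_I b
    rw [hfac s] at e1
    rw [← hbdef] at e1
    rw [norm_mul] at e1
    have e2 : ((‖d0‖ * ‖b‖ : ℝ) : ℂ) * (exp (g 0 * I) * exp (arg b * I))
        = ((‖d0‖ * ‖b‖ : ℝ) : ℂ) * exp (g s * I) := by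
      rw [← e1]
      conv_rhs => rw [e0', ← eb]
      push_cast
      ring
    have h5 : ((‖d0‖ * ‖b‖ : ℝ) : ℂ) ≠ 0 := by
      have : 0 < ‖d0‖ * ‖b‖ := mul_pos (norm_pos_iff.mpr hd0) (norm_pos_iff.mpr hbn)
      exact_mod_cast this.ne'
    have e3 := mul_left_cancel₀ h5 e2
    have e4 : exp (((g s - g 0 - arg b : ℝ) : ℂ) * I) = 1 := by
      have : ((g s - g 0 - arg b : ℝ) : ℂ) * I = (g s : ℂ) * I - ((g 0 : ℂ) * I + (arg b : ℂ) * I) := by
        push_cast
        ring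
      rw [this, Complex.exp_sub, Complex.exp_add, e3]
      exact div_self (Complex.exp_ne_zero _)
    have e5 := congrArg Complex.re e4
    rw [Complex.exp_ofReal_mul_I_re] at e5
    simpa using e5
  intro s hs
  have := SEG_cos _ hcont hz0 hkey s hs
  linarith

theorem SEG (hPHD : PHD_stmt) (hPHC : PHC_stmt) : SEG_stmt := by
  intro F G S hF hG haff
  have hacc : ∀ s ∈ Set.Icc (0 : ℝ) 1, AccS (mix F G s) S := fun s hs => SEG_acc F G S hF hG s hs
  have hg : ContinuousOn (fun s => phS (mix F G s) S) (Set.Icc 0 1) := by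
    apply hPHC (fun s => mix F G s) S
    · intro i _ j _
      apply Continuous.continuousOn
      unfold mix
      fun_prop
    · exact hacc
  have hcore := SEG_core (fun s => phS (mix F G s) S) hg (detS F S) (detS G S)
    (fun s hs => by
      rw [← haff s hs]
      exact (hPHD _ _ (hacc s hs)).1)
    (fun s hs => by
      rw [← haff s hs]
      exact (hPHD _ _ (hacc s hs)).2.1)
  obtain ⟨hslit, hform⟩ := hcore
  have e0 : phS (mix F G 0) S = phS F S := by rw [SEG_mix0]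
  have e1 : phS G S = phS F S + arg (detS G S / detS F S) := by
    have := hform 1 ⟨zero_le_one, le_rfl⟩
    simp only [SEG_mix1, SEG_mix0] at this
    rw [this]
    simp
  have es : ∀ s ∈ Set.Icc (0 : ℝ) 1, phS (mix F G s) S
      = phS F S + arg ((1 - (s : ℂ)) + (s : ℂ) * (detS G S / detS F S)) := by
    intro s hs
    have := hform s hs
    simp only [SEG_mix0] at this
    exact this
  constructor
  · intro s hs
    rw [e1, es s hs]
    rcases le_total 0 (detS G S / detS F S).im with hi | hi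
    · have := SEG_up _ hslit hi s hs
      exact (min_le_left _ _).trans (by linarith [this.1])
    · have := SEG_dn _ hslit hi s hs
      exact (min_le_right _ _).trans (by linarith [this.1])
  · intro hre s hs
    rw [e1, es s hs]
    have hpi := abs_le.mp (Complex.abs_arg_le_pi_div_two_iff.mpr hre)
    rcases le_total 0 (detS G S / detS F S).im with hi | hi
    · have := SEG_up _ hslit hi s hs
      linarith [this.1, hpi.2]
    · have := SEG_dn _ hslit hi s hs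
      linarith [this.1, Real.pi_pos]

end Pool.Agent.MO
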